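import Pool.Agent.W128.VA.Stm

set_option autoImplicit false

namespace Pool.Agent.W35.VA.Lin

open Finset Pool.Agent.W128.VA

section

variable {W : Type*} [AddCommGroup W] [Module ℂ W]

theorem key (N : ℕ) (G : ℕ → W) :
    ∑ j ∈ range (N + 1 + 1), ((-1 : ℂ) ^ j * ((N + 1).choose j : ℂ)) • G j =
      ∑ j ∈ range (N + 1), ((-1 : ℂ) ^ j * (N.choose j : ℂ)) • G j -
      ∑ j ∈ range (N + 1), ((-1 : ℂ) ^ j * (N.choose j : ℂ)) • G (j + 1) := by
  have h1 : ∑ j ∈ range (N + 1 + 1), ((-1 : ℂ) ^ j * (N.choose j : ℂ)) • G j =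
      ∑ j ∈ range (N + 1), ((-1 : ℂ) ^ j * (N.choose j : ℂ)) • G j := by
    rw [Finset.sum_range_succ]
    simp
  rw [← h1, Finset.sum_range_succ' _ (N + 1), Finset.sum_range_succ' _ (N + 1)]
  have h2 : ∀ j : ℕ, ((-1 : ℂ) ^ (j + 1) * ((N + 1).choose (j + 1) : ℂ)) • G (j + 1) =
      ((-1 : ℂ) ^ (j + 1) * (N.choose (j + 1) : ℂ)) • G (j + 1) -
      ((-1 : ℂ) ^ j * (N.choose j : ℂ)) • G (j + 1) := by
    intro j
    rw [← sub_smul, Nat.choose_succ_succ]
    congr 1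
    push_cast
    ring
  simp only [h2, Finset.sum_sub_distrib]
  simp
  abel

theorem loc_succ {a b : ℤ → Module.End ℂ W} {N : ℕ} (h : Loc a b N) : Loc a b (N + 1) := by
  intro m n w
  have := key N (fun j : ℕ => a (m + ((N + 1 : ℕ) : ℤ) - j) (b (n + j) w) -
    b (n + j) (a (m + ((N + 1 : ℕ) : ℤ) - j) w))
  rw [this]
  have e1 := h (m + 1) n w
  have e2 := h m (n + 1) w
  have f1 : ∑ j ∈ range (N + 1), ((-1 : ℂ) ^ j * (N.choose j : ℂ)) •
      (a (m + ((N + 1 : ℕ) : ℤ) - j) (b (n + j) w) -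
    b (n + j) (a (m + ((N + 1 : ℕ) : ℤ) - j) w)) = 0 := by
    rw [← e1]
    refine Finset.sum_congr rfl fun j _ => ?_
    have : m + ((N + 1 : ℕ) : ℤ) - j = m + 1 + N - j := by push_cast; ring
    rw [this]
  have f2 : ∑ j ∈ range (N + 1), ((-1 : ℂ) ^ j * (N.choose j : ℂ)) •
      (a (m + ((N + 1 : ℕ) : ℤ) - ((j + 1 : ℕ) : ℤ)) (b (n + ((j + 1 : ℕ) : ℤ)) w) -
    b (n + ((j + 1 : ℕ) : ℤ)) (a (m + ((N + 1 : ℕ) : ℤ) - ((j + 1 : ℕ) : ℤ)) w)) = 0 := by
    rw [← e2]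
    refine Finset.sum_congr rfl fun j _ => ?_
    have g1 : m + ((N + 1 : ℕ) : ℤ) - ((j + 1 : ℕ) : ℤ) = m + N - j := by push_cast; ring
    have g2 : n + ((j + 1 : ℕ) : ℤ) = n + 1 + j := by push_cast; ring
    rw [g1, g2]
  rw [f1, f2, sub_zero]

theorem loc_mono {a b : ℤ → Module.End ℂ W} {N M : ℕ} (h : Loc a b N) (hNM : N ≤ M) :
    Loc a b M := by
  induction hNM with
  | refl => exact h
  | step _ ih => exact loc_succ ih

theorem loc_symm {a b : ℤ → Module.End ℂ W} {N : ℕ} (h : Loc a b N) : Loc b a N := by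
  intro m n w
  have e := h n m w
  rw [← Finset.sum_range_reflect] at e
  have : ∑ j ∈ range (N + 1), ((-1 : ℂ) ^ j * (N.choose j : ℂ)) •
      (b (m + N - j) (a (n + j) w) - a (n + j) (b (m + N - j) w)) =
      (-(-1 : ℂ) ^ N) • ∑ j ∈ range (N + 1), ((-1 : ℂ) ^ (N + 1 - 1 - j) *
        (N.choose (N + 1 - 1 - j) : ℂ)) •
      (a (n + N - ((N + 1 - 1 - j : ℕ) : ℤ)) (b (m + ((N + 1 - 1 - j : ℕ) : ℤ)) w) -
        b (m + ((N + 1 - 1 - j : ℕ) : ℤ)) (a (n + N - ((N + 1 - 1 - j : ℕ) : ℤ)) w)) := by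
    rw [Finset.smul_sum]
    refine Finset.sum_congr rfl fun j hj => ?_
    have hj' : j ≤ N := Nat.lt_succ_iff.mp (Finset.mem_range.mp hj)
    have c1 : N + 1 - 1 - j = N - j := by omega
    have c2 : ((N - j : ℕ) : ℤ) = (N : ℤ) - j := by omega
    rw [c1, c2, Nat.choose_symm hj']
    have c3 : n + (N : ℤ) - ((N : ℤ) - j) = n + j := by ring
    have c4 : m + ((N : ℤ) - j) = m + N - j := by ring
    rw [c3, c4, smul_smul]
    have c5 : (-(-1 : ℂ) ^ N) * ((-1 : ℂ) ^ (N - j) * (N.choose j : ℂ)) =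
        -((-1 : ℂ) ^ j * (N.choose j : ℂ)) := by
      have : (-1 : ℂ) ^ N * (-1 : ℂ) ^ (N - j) = (-1 : ℂ) ^ j := by
        have hN : N = (N - j) + j := by omega
        have h2 : (-1 : ℂ) ^ N = (-1 : ℂ) ^ (N - j) * (-1 : ℂ) ^ j := by
          conv_lhs => rw [hN]
          rw [pow_add]
        rw [h2]
        have h3 : (-1 : ℂ) ^ (N - j) * (-1 : ℂ) ^ (N - j) = 1 := by
          rw [← mul_pow]; simp
        linear_combination (-1 : ℂ) ^ j * h3
      linear_combination (-(N.choose j : ℂ)) * this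
    rw [c5, neg_smul, ← smul_neg, neg_sub]
  rw [this, e, smul_zero]

end

theorem main : S_LIN := by
  intro W _ _ a b c
  refine ⟨?_, ?_, ?_, ?_, ?_⟩
  · rintro ⟨N, h⟩
    exact ⟨N, loc_symm h⟩
  · rintro ⟨N, h⟩ ⟨M, h'⟩
    refine ⟨max N M, ?_⟩
    have h1 := loc_mono h (le_max_left N M)
    have h2 := loc_mono h' (le_max_right N M)
    intro m n w
    have e1 := h1 m n w
    have e2 := h2 m n w
    have : ∀ j : ℕ, ((-1 : ℂ) ^ j * ((max N M).choose j : ℂ)) •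
        ((a + b) (m + (max N M : ℕ) - j) (c (n + j) w) -
          c (n + j) ((a + b) (m + (max N M : ℕ) - j) w)) =
        ((-1 : ℂ) ^ j * ((max N M).choose j : ℂ)) •
        (a (m + (max N M : ℕ) - j) (c (n + j) w) - c (n + j) (a (m + (max N M : ℕ) - j) w)) +
        ((-1 : ℂ) ^ j * ((max N M).choose j : ℂ)) •
        (b (m + (max N M : ℕ) - j) (c (n + j) w) - c (n + j) (b (m + (max N M : ℕ) - j) w)) := by
      intro j
      rw [← smul_add]
      congr 1
      simp only [Pi.add_apply, LinearMap.add_apply, map_add]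
      abel
    simp only [this, Finset.sum_add_distrib]
    rw [e1, e2, add_zero]
  · rintro t ⟨N, h⟩
    refine ⟨N, ?_⟩
    intro m n w
    have e1 := h m n w
    have : ∀ j : ℕ, ((-1 : ℂ) ^ j * (N.choose j : ℂ)) •
        ((t • a) (m + N - j) (c (n + j) w) - c (n + j) ((t • a) (m + N - j) w)) =
        t • (((-1 : ℂ) ^ j * (N.choose j : ℂ)) •
        (a (m + N - j) (c (n + j) w) - c (n + j) (a (m + N - j) w))) := by
      intro j
      rw [smul_comm t]
      congr 1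
      simp only [Pi.smul_apply, LinearMap.smul_apply, map_smul, smul_sub]
    simp only [this, ← Finset.smul_sum]
    rw [e1, smul_zero]
  · refine ⟨0, ?_⟩
    intro m n w
    simp
  · refine ⟨0, ?_⟩
    intro m n w
    simp only [Finset.range_one, zero_add, Finset.sum_singleton]
    by_cases hm : m = -1
    · simp [idF, hm]
    · simp [idF, hm]

end Pool.Agent.W35.VA.Lin
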